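import Mathlib
import Pool.Agent.Helper43.QN.Basic
import Pool.Agent.Helper40.QG.More
import Pool.Agent.Helper40.QG.Perf
import Pool.Agent.Helper44.QL.Min
import Pool.Agent.Helper44.QL.MCharF
import Pool.Agent.Helper44.QL.Factor

/-!
# The elements of order 151 of `NN` and of the groups `GG` (project AUT, S00834)
-/

set_option autoImplicit false
set_option linter.unusedSectionVars false

namespace QM44

open QN43 QL44

/-! ### powers in semidirect products -/

section SD

variable {V C : Type} [AddCommGroup V] [Group C] [DistribMulAction C V]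

theorem sd_pow (u : SD V C) (n : ℕ) :
    u ^ n = ⟨∑ i ∈ Finset.range n, u.c ^ i • u.v, u.c ^ n⟩ := by
  induction n with
  | zero => ext1 <;> simp
  | succ n ih =>
    rw [pow_succ, ih]
    ext1
    · simp only [SD.mul_v]
      rw [Finset.sum_range_succ]
    · simp only [SD.mul_c]
      rw [pow_succ]

theorem sd_pow_c (u : SD V C) (n : ℕ) : (u ^ n).c = u.c ^ n := by rw [sd_pow]

/-- `(v, z)` has order `p` if `z` has and `∑ z^i v = 0`. -/
theorem sd_order {p : ℕ} (hp : p.Prime) (v : V) (z : C) (hz : orderOf z = p)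
    (hs : ∑ i ∈ Finset.range p, z ^ i • v = 0) : orderOf (⟨v, z⟩ : SD V C) = p := by
  have _ : Fact p.Prime := ⟨hp⟩
  apply orderOf_eq_prime
  · rw [sd_pow]
    ext1
    · exact hs
    · show z ^ p = 1
      rw [← hz]
      exact pow_orderOf_eq_one z
  · intro h
    have h1 : z = 1 := congrArg SD.c h
    rw [h1, orderOf_one] at hz
    exact hp.one_lt.ne hz

end SD

/-! ### projections of `WW` -/

section WW

variable {E Y : Type} [AddCommGroup E] [AddCommGroup Y]

/-- first projection -/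
def wfst : WW E Y →+ (Fin 15 → E) := AddMonoidHom.fst (Fin 15 → E) (Fin 15 → Y)
/-- second projection -/
def wsnd : WW E Y →+ (Fin 15 → Y) := AddMonoidHom.snd (Fin 15 → E) (Fin 15 → Y)

@[simp] theorem wfst_apply (w : WW E Y) : wfst w = w.1 := rfl
@[simp] theorem wsnd_apply (w : WW E Y) : wsnd w = w.2 := rfl

theorem ww_ext {v w : WW E Y} (h1 : v.1 = w.1) (h2 : v.2 = w.2) : v = w := Prod.ext h1 h2

end WW

/-! ### hypotheses -/

variable {J : Type} [AddCommGroup J] [Module (ZMod 2) J] [Module (ZMod 2)ᵐᵒᵖ J]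
  [IsCentralScalar (ZMod 2) J]
variable {B : Type} [Ring B] {κ : A0 J →+* B} {E : Type} [AddCommGroup E] [Module (A0 J) E]

/-- the facts about `NN` used in this folder -/
structure NF (κ : A0 J →+* B) (E : Type) [AddCommGroup E] [Module (A0 J) E] : Prop where
  finJ : Finite J
  finB : Finite B
  finE : Finite E
  inj : Function.Injective κ
  pow : ∀ n : NN κ E, n ^ 151 = 1 → n ∈ G1s κ E
  comm : ∀ n m : NN κ E, (∀ g, n * sig κ E g = sig κ E g * n) →
    (∀ g, m * sig κ E g = sig κ E g * m) → n * m = m * n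

/-- `ZMod 2 → A0 J` -/
def incJ (J : Type) [AddCommGroup J] [Module (ZMod 2) J] [Module (ZMod 2)ᵐᵒᵖ J]
    [IsCentralScalar (ZMod 2) J] : ZMod 2 →+* A0 J := TrivSqZeroExt.inlHom (ZMod 2) J

theorem hsqJ (a b : A0 J) (ha : fstR J a = 0) (hb : fstR J b = 0) : a * b = 0 := by
  rw [fstR_apply] at ha hb
  apply TrivSqZeroExt.ext
  · rw [TrivSqZeroExt.fst_mul, ha, zero_mul, TrivSqZeroExt.fst_zero]
  · rw [TrivSqZeroExt.snd_mul, ha, hb, zero_smul, MulOpposite.op_zero, zero_smul, add_zero,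
      TrivSqZeroExt.snd_zero]

theorem two_A0 : (2 : A0 J) = 0 := QG40.two_eq_zero (incJ J)

theorem finA0 [Finite J] : Finite (A0 J) := inferInstanceAs (Finite (ZMod 2 × J))

/-- `E` is an elementary abelian `2`-group -/
theorem add_self_E (J : Type) [AddCommGroup J] [Module (ZMod 2) J] [Module (ZMod 2)ᵐᵒᵖ J]
    [IsCentralScalar (ZMod 2) J] {E : Type} [AddCommGroup E] [Module (A0 J) E] (x : E) :
    x + x = 0 := by
  have h : (2 : A0 J) • x = 0 := by rw [two_A0, zero_smul]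
  rwa [two_smul] at h

theorem two_B (κ : A0 J →+* B) : (2 : B) = 0 := by
  have h : κ 2 = 2 := map_ofNat κ 2
  rw [← h, two_A0, map_zero]

theorem add_self_Y (κ : A0 J →+* B) {Y : Type} [AddCommGroup Y] [Module B Y] (y : Y) :
    y + y = 0 := by
  have h : (2 : B) • y = 0 := by rw [two_B κ, zero_smul]
  rwa [two_smul] at h

theorem add_self_W (κ : A0 J →+* B) {Y : Type} [AddCommGroup Y] [Module B Y] (w : WW E Y) :
    w + w = 0 := by
  apply ww_ext
  · funext i
    exact add_self_E J (w.1 i)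
  · funext i
    exact add_self_Y κ (w.2 i)

/-! ### the subgroup `Pi 151 (NN κ E)` -/

theorem sig_order (h : NF κ E) (g : (Mt (A0 J))ˣ) : orderOf (sig κ E g) = orderOf g :=
  orderOf_injective _ (sig_injective κ E h.inj) g

theorem exists_sig (h : NF κ E) {n : NN κ E} (hn : n ^ 151 = 1) :
    ∃ g : (Mt (A0 J))ˣ, sig κ E g = n ∧ g ^ 151 = 1 := by
  obtain ⟨g, hg⟩ := h.pow n hn
  refine ⟨g, hg, ?_⟩
  apply sig_injective κ E h.inj
  rw [map_pow, hg, hn, map_one]

theorem PN_eq (h : NF κ E) : Pi 151 (NN κ E) = (Pi 151 (Mt (A0 J))ˣ).map (sig κ E) := by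
  apply le_antisymm
  · apply Pi_le
    intro n hn
    obtain ⟨g, hg, hg2⟩ := exists_sig h (n := n) (by rw [← hn]; exact pow_orderOf_eq_one n)
    refine ⟨g, mem_Pi ?_, hg⟩
    rw [← sig_order h g, hg, hn]
  · rw [Subgroup.map_le_iff_le_comap]
    apply Pi_le
    intro g hg
    rw [Subgroup.mem_comap]
    apply mem_Pi
    rw [sig_order h g, hg]

theorem PN_le_G1s (h : NF κ E) : Pi 151 (NN κ E) ≤ G1s κ E := by
  rw [PN_eq h]
  rintro _ ⟨g, -, rfl⟩
  exact ⟨g, rfl⟩

/-! ### elements of order 151 have no fixed points -/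

theorem sum_mact {R M : Type} [Ring R] [AddCommGroup M] [Module R M] (n : ℕ) (f : ℕ → Mt R)
    (hf : ∑ i ∈ Finset.range n, f i = 0) (e : Fin 15 → M) :
    ∑ i ∈ Finset.range n, mact (f i) e = 0 := by
  have h2 : ∑ i ∈ Finset.range n, (mact (M := M)) (f i) = 0 := by
    rw [← map_sum, hf, map_zero]
  have h3 := congrArg (fun f : AddMonoid.End (Fin 15 → M) => f e) h2
  refine Eq.trans ?_ h3
  exact (AddMonoidHom.finsetSum_apply (fun i => (mact (M := M)) (f i)) (Finset.range n) e).symm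

theorem sumE (g : (Mt (A0 J))ˣ) (hg : orderOf g = 151) (e : Fin 15 → E) :
    ∑ i ∈ Finset.range 151, mact ((g ^ i : (Mt (A0 J))ˣ) : Mt (A0 J)) e = 0 := by
  apply sum_mact
  have h1 := QG40.sumA (incJ J) (fstR J) hsqJ g hg
  simp only [Units.val_pow_eq_pow_val]
  exact h1

theorem kT_sum (κ : A0 J →+* B) {ι : Type} (s : Finset ι) (f : ι → Mt (A0 J)) :
    kT κ (∑ i ∈ s, f i) = ∑ i ∈ s, kT κ (f i) := by
  funext i j
  simp only [kT_apply, Matrix.sum_apply, map_sum]

theorem kT_zero (κ : A0 J →+* B) : kT κ (0 : Mt (A0 J)) = 0 := by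
  funext i j
  simp

theorem sumY (κ : A0 J →+* B) {Y : Type} [AddCommGroup Y] [Module B Y] (g : (Mt (A0 J))ˣ)
    (hg : orderOf g = 151) (y : Fin 15 → Y) :
    ∑ i ∈ Finset.range 151, mact (kT κ (((g ^ i)⁻¹ : (Mt (A0 J))ˣ) : Mt (A0 J))) y = 0 := by
  have h1 := QG40.sumA (incJ J) (fstR J) hsqJ g⁻¹ (by rw [orderOf_inv, hg])
  apply sum_mact (f := fun i => kT κ (((g ^ i)⁻¹ : (Mt (A0 J))ˣ) : Mt (A0 J)))
  rw [← kT_sum]
  simp only [← inv_pow, Units.val_pow_eq_pow_val]
  rw [h1, kT_zero]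

end QM44
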