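import Mathlib
import Pool.Agent.Helper44.QM.Base

/-!
# The subgroups `S = M ⋊ Pi(G_1)` and `Q = Pi(C)` of `GG X C Y` (project AUT, S00834)
-/

set_option autoImplicit false
set_option linter.unusedSectionVars false

namespace QM44

open QN43 QL44

variable {J : Type} [AddCommGroup J] [Module (ZMod 2) J] [Module (ZMod 2)ᵐᵒᵖ J]
  [IsCentralScalar (ZMod 2) J]
variable {B : Type} [Ring B] {κ : A0 J →+* B} {E : Type} [AddCommGroup E] [Module (A0 J) E]
variable {C Y : Type} [Group C] [AddCommGroup Y] [Module B Y] [DistribMulAction C Y]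
  [SMulCommClass C B Y]

/-! ### the action of the elements of order 151 -/

theorem sumW (h : NF κ E) {X : Subgroup (NN κ E)} (x : X × C)
    (hx : orderOf (x.1 : NN κ E) = 151) (hc : ∀ y : Y, x.2 • y = y) (w : WW E Y) :
    ∑ i ∈ Finset.range 151, x ^ i • w = 0 := by
  obtain ⟨g, hg, -⟩ := exists_sig h (n := (x.1 : NN κ E)) (by rw [← hx]; exact pow_orderOf_eq_one _)
  have hg2 : orderOf g = 151 := by rw [← sig_order h g, hg, hx]
  have hc2 : ∀ (i : ℕ) (y : Y), x.2 ^ i • y = y := by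
    intro i
    induction i with
    | zero => intro y; rw [pow_zero, one_smul]
    | succ i ih => intro y; rw [pow_succ, mul_smul, hc, ih]
  have hx2 : ∀ i : ℕ, ((x ^ i).1 : NN κ E) = sig κ E (g ^ i) := by
    intro i
    rw [map_pow, hg]
    rfl
  have h1 : ∀ i : ℕ, wfst (x ^ i • w) = mact ((g ^ i : (Mt (A0 J))ˣ) : Mt (A0 J)) w.1 := by
    intro i
    rw [wfst_apply, ww_fst, hx2]
    rfl
  have h2 : ∀ i : ℕ, wsnd (x ^ i • w) =
      mact (kT κ (((g ^ i)⁻¹ : (Mt (A0 J))ˣ) : Mt (A0 J))) w.2 := by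
    intro i
    rw [wsnd_apply, ww_snd, hx2]
    have h3 : (fun j => (x ^ i).2 • w.2 j) = w.2 := by
      funext j
      exact hc2 i (w.2 j)
    rw [h3]
    rfl
  apply ww_ext
  · show wfst (∑ i ∈ Finset.range 151, x ^ i • w) = 0
    rw [map_sum, Finset.sum_congr rfl (fun i _ => h1 i)]
    exact sumE g hg2 w.1
  · show wsnd (∑ i ∈ Finset.range 151, x ^ i • w) = 0
    rw [map_sum, Finset.sum_congr rfl (fun i _ => h2 i)]
    exact sumY κ g hg2 w.2

/-- no fixed points -/
theorem fixW (h : NF κ E) {X : Subgroup (NN κ E)} (x : X × C)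
    (hx : orderOf (x.1 : NN κ E) = 151) (hc : ∀ y : Y, x.2 • y = y) (w : WW E Y)
    (hw : x • w = w) : w = 0 := by
  have h1 : ∀ i : ℕ, x ^ i • w = w := by
    intro i
    induction i with
    | zero => rw [pow_zero, one_smul]
    | succ i ih => rw [pow_succ, mul_smul, hw, ih]
  have h2 := sumW h x hx hc w
  rw [Finset.sum_congr rfl (fun i _ => h1 i), Finset.sum_const, Finset.card_range] at h2
  have h3 : 2 • w = 0 := by rw [two_nsmul]; exact add_self_W κ w
  have h4 : (151 : ℕ) • w = w + 75 • (2 • w) := by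
    rw [← mul_nsmul, ← succ_nsmul']
  rw [h4, h3, smul_zero, add_zero] at h2
  exact h2

/-- elements of order 151 of `GG` over elements of order 151 of `X` -/
theorem order_mk (h : NF κ E) {X : Subgroup (NN κ E)} (w : WW E Y) (x : X)
    (hx : orderOf (x : NN κ E) = 151) : orderOf (⟨w, (x, 1)⟩ : GG X C Y) = 151 := by
  apply sd_order prime151
  · rw [show ((x, 1) : X × C) = MonoidHom.inl X C x from rfl,
      orderOf_injective (MonoidHom.inl X C) (fun a b hab => congrArg Prod.fst hab) x,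
      ← Subgroup.orderOf_coe]
    exact hx
  · exact sumW h ((x, 1) : X × C) hx (fun y => one_smul C y) w

/-! ### the subgroup `S` -/

variable (X : Subgroup (NN κ E))

/-- `S = M ⋊ Pi(G_1)` -/
def SS (C Y : Type) [Group C] [AddCommGroup Y] [Module B Y] [DistribMulAction C Y]
    [SMulCommClass C B Y] : Subgroup (GG X C Y) :=
  (((Pi 151 (NN κ E)).subgroupOf X).prod ⊥).comap SD.pr

theorem mem_SS {u : GG X C Y} : u ∈ SS X C Y ↔
    (u.c.1 : NN κ E) ∈ Pi 151 (NN κ E) ∧ u.c.2 = 1 := by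
  unfold SS
  rw [Subgroup.mem_comap, Subgroup.mem_prod, Subgroup.mem_subgroupOf, Subgroup.mem_bot]
  exact Iff.rfl

instance SS_normal : (SS X C Y).Normal := by
  unfold SS
  infer_instance

/-- `Q = Pi(C)` -/
def QQ (C Y : Type) [Group C] [AddCommGroup Y] [Module B Y] [DistribMulAction C Y]
    [SMulCommClass C B Y] : Subgroup (GG X C Y) :=
  (Pi 151 C).map ((SD.inr : X × C →* GG X C Y).comp (MonoidHom.inr X C))

theorem mem_QQ {u : GG X C Y} : u ∈ QQ X C Y ↔ u.v = 0 ∧ u.c.1 = 1 ∧ u.c.2 ∈ Pi 151 C := by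
  constructor
  · rintro ⟨c, hc, rfl⟩
    exact ⟨rfl, rfl, hc⟩
  · rintro ⟨h1, h2, h3⟩
    refine ⟨u.c.2, h3, ?_⟩
    ext1
    · exact h1.symm
    · exact Prod.ext h2.symm rfl

theorem disj : Disjoint (SS X C Y) (QQ X C Y) := by
  rw [Subgroup.disjoint_def]
  intro u h1 h2
  obtain ⟨h3, h4, -⟩ := (mem_QQ X).mp h2
  ext1
  · exact h3
  · exact Prod.ext h4 ((mem_SS X).mp h1).2

/-- elements of `Pi C` act trivially on `Y` -/
theorem piC_smul (hC : ∀ c : C, c ^ 151 = 1 → ∀ y : Y, c • y = y) {c : C} (hc : c ∈ Pi 151 C)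
    (y : Y) : c • y = y := by
  let T : Subgroup C :=
    { carrier := {c | ∀ y : Y, c • y = y}
      one_mem' := fun y => one_smul C y
      mul_mem' := by
        intro a b ha hb y
        rw [mul_smul, hb, ha]
      inv_mem' := by
        intro a ha y
        rw [inv_smul_eq_iff, ha] }
  have h1 : Pi 151 C ≤ T := by
    apply Pi_le
    intro x hx
    exact hC x (by rw [← hx]; exact pow_orderOf_eq_one x)
  exact h1 hc y

/-- `(1, c)` acts trivially on `W` if `c` acts trivially on `Y` -/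
theorem smul_snd {c : C} (hc : ∀ y : Y, c • y = y) (w : WW E Y) :
    ((1, c) : X × C) • w = w := by
  apply ww_ext
  · rw [ww_fst]
    rfl
  · rw [ww_snd]
    have h3 : (fun j => c • w.2 j) = w.2 := by
      funext j
      exact hc (w.2 j)
    show mact (1 : Mt B) (fun j => c • w.2 j) = w.2
    rw [h3, mact_one_apply]

theorem comm_SQ (hC : ∀ c : C, c ^ 151 = 1 → ∀ y : Y, c • y = y) (u : GG X C Y)
    (hu : u.c.2 = 1) (q : GG X C Y) (hq : q ∈ QQ X C Y) : u * q = q * u := by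
  obtain ⟨h1, h2, h3⟩ := (mem_QQ X).mp hq
  have hq2 : q.c = (1, q.c.2) := Prod.ext h2 rfl
  ext1
  · rw [SD.mul_v, SD.mul_v, h1, smul_zero, add_zero, zero_add, hq2,
      smul_snd X (fun y => piC_smul hC h3 y)]
  · rw [SD.mul_c, SD.mul_c, hq2]
    refine Prod.ext ?_ ?_
    · show u.c.1 * 1 = 1 * u.c.1
      rw [mul_one, one_mul]
    · show u.c.2 * q.c.2 = q.c.2 * u.c.2
      rw [hu, mul_one, one_mul]

/-- the elements of order 151 lie in `S Q` -/
theorem Pi_le_sup (hC : ∀ c : C, c ^ 151 = 1 → ∀ y : Y, c • y = y) :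
    Pi 151 (GG X C Y) ≤ SS X C Y ⊔ QQ X C Y := by
  apply Pi_le
  intro u hu
  have h1 : u.c ^ 151 = 1 := by
    rw [← sd_pow_c, ← hu, pow_orderOf_eq_one]
    rfl
  have h2 : ∀ {H : Type} [Group H] (f : GG X C Y →* H), f u ∈ Pi 151 H := by
    intro H _ f
    rcases orderOf_map prime151 f hu with h | h
    · rw [h]; exact one_mem _
    · exact mem_Pi h
  have h3 : (u.c.1 : NN κ E) ∈ Pi 151 (NN κ E) :=
    h2 ((X.subtype.comp (MonoidHom.fst X C)).comp SD.pr)
  have h4 : u.c.2 ∈ Pi 151 C := h2 ((MonoidHom.snd X C).comp SD.pr)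
  have h5 : u = (⟨u.v, (u.c.1, 1)⟩ : GG X C Y) * ⟨0, (1, u.c.2)⟩ := by
    ext1
    · rw [SD.mul_v, smul_zero, add_zero]
    · rw [SD.mul_c]
      exact Prod.ext (mul_one _).symm (one_mul _).symm
  rw [h5]
  apply Subgroup.mul_mem
  · exact Subgroup.mem_sup_left ((mem_SS X).mpr ⟨h3, rfl⟩)
  · exact Subgroup.mem_sup_right ((mem_QQ X).mpr ⟨rfl, rfl, h4⟩)

end QM44
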