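import Mathlib
import Pool.Agent.Helper44.QM.Grp

/-!
# `S` is perfect, generated by its elements of order 151, and `151² ∤ |S|` (project AUT, S00834)
-/

set_option autoImplicit false
set_option linter.unusedSectionVars false

namespace QM44

open QN43 QL44

open scoped commutatorElement

variable {J : Type} [AddCommGroup J] [Module (ZMod 2) J] [Module (ZMod 2)ᵐᵒᵖ J]
  [IsCentralScalar (ZMod 2) J]
variable {B : Type} [Ring B] {κ : A0 J →+* B} {E : Type} [AddCommGroup E] [Module (A0 J) E]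
variable {C Y : Type} [Group C] [AddCommGroup Y] [Module B Y] [DistribMulAction C Y]
  [SMulCommClass C B Y]
variable {X : Subgroup (NN κ E)}

/-- there is an element of order 151 in `GL_15(A0)` -/
theorem exists_zA (J : Type) [AddCommGroup J] [Module (ZMod 2) J] [Module (ZMod 2)ᵐᵒᵖ J]
    [IsCentralScalar (ZMod 2) J] : ∃ z : (Mt (A0 J))ˣ, orderOf z = 151 := by
  obtain ⟨z, hz⟩ := QG40.exists_z
  exact ⟨QG40.cst (incJ J) z, by rw [QG40.orderOf_cst (incJ J) (fstR J), hz]⟩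

/-- `GL_15(A0) → X` -/
def sigX (hX : G1s κ E ≤ X) : (Mt (A0 J))ˣ →* X :=
  (sig κ E).codRestrict X (fun g => hX ⟨g, rfl⟩)

@[simp] theorem sigX_coe (hX : G1s κ E ≤ X) (g : (Mt (A0 J))ˣ) :
    ((sigX hX g : X) : NN κ E) = sig κ E g := rfl

/-- `GL_15(A0) → GG` -/
def FF (C Y : Type) [Group C] [AddCommGroup Y] [Module B Y] [DistribMulAction C Y]
    [SMulCommClass C B Y] (hX : G1s κ E ≤ X) : (Mt (A0 J))ˣ →* GG X C Y :=
  (SD.inr : X × C →* GG X C Y).comp ((MonoidHom.inl X C).comp (sigX hX))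

theorem FF_apply (hX : G1s κ E ≤ X) (g : (Mt (A0 J))ˣ) :
    FF C Y hX g = ⟨0, (sigX hX g, 1)⟩ := rfl

theorem FF_order (h : NF κ E) (hX : G1s κ E ≤ X) (w : WW E Y) {g : (Mt (A0 J))ˣ}
    (hg : orderOf g = 151) : orderOf (⟨w, (sigX hX g, 1)⟩ : GG X C Y) = 151 := by
  apply order_mk h
  rw [sigX_coe, sig_order h, hg]

theorem FF_mem (h : NF κ E) (hX : G1s κ E ≤ X) (w : WW E Y) {g : (Mt (A0 J))ˣ}
    (hg : g ∈ Pi 151 (Mt (A0 J))ˣ) : (⟨w, (sigX hX g, 1)⟩ : GG X C Y) ∈ SS X C Y := by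
  rw [mem_SS]
  refine ⟨?_, rfl⟩
  rw [PN_eq h]
  exact ⟨g, hg, rfl⟩

/-- `S` is generated by its elements of order 151 -/
theorem SS_le_Pi (h : NF κ E) (hX : G1s κ E ≤ X) : SS X C Y ≤ PiIn 151 (SS X C Y) := by
  intro u hu
  obtain ⟨h1, h2⟩ := (mem_SS X).mp hu
  rw [PN_eq h] at h1
  obtain ⟨g, hg, hg2⟩ := h1
  obtain ⟨z, hz⟩ := exists_zA J
  have e1 : ∀ (w : WW E Y) {g : (Mt (A0 J))ˣ}, orderOf g = 151 →
      (⟨w, (sigX hX g, 1)⟩ : GG X C Y) ∈ PiIn 151 (SS X C Y) := by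
    intro w g hg
    exact mem_PiIn (FF_mem h hX w (mem_Pi hg)) (FF_order h hX w hg)
  have e2 : ∀ w : WW E Y, (SD.inl w : GG X C Y) ∈ PiIn 151 (SS X C Y) := by
    intro w
    have h3 : (SD.inl w : GG X C Y) =
        (⟨w, (sigX hX z, 1)⟩ : GG X C Y) * (⟨0, (sigX hX z, 1)⟩ : GG X C Y)⁻¹ := by
      rw [eq_mul_inv_iff_mul_eq]
      ext1
      · rw [SD.mul_v, SD.inl_v, SD.inl_c, smul_zero, add_zero]
      · rw [SD.mul_c, SD.inl_c, one_mul]
    rw [h3]
    exact Subgroup.mul_mem _ (e1 w hz) (Subgroup.inv_mem _ (e1 0 hz))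
  have e3 : (Pi 151 (Mt (A0 J))ˣ).map (FF C Y hX) ≤ PiIn 151 (SS X C Y) := by
    rw [Subgroup.map_le_iff_le_comap]
    apply Pi_le
    intro x hx
    rw [Subgroup.mem_comap, FF_apply]
    exact e1 0 hx
  have e4 : u = SD.inl u.v * FF C Y hX g := by
    ext1
    · rw [SD.mul_v, SD.inl_v, SD.inl_c, one_smul, FF_apply, add_zero]
    · rw [SD.mul_c, SD.inl_c, one_mul, FF_apply]
      exact Prod.ext (Subtype.ext hg2.symm) h2
  rw [e4]
  exact Subgroup.mul_mem _ (e2 u.v) (e3 ⟨g, hg, rfl⟩)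

/-- `[S,S]` contains an element of order 151 -/
theorem SS_comm_order (h : NF κ E) (hX : G1s κ E ≤ X) :
    ∃ b ∈ ⁅SS X C Y, SS X C Y⁆, orderOf b = 151 := by
  have _ := h.finJ
  have _ : Finite (A0 J) := finA0
  obtain ⟨z, hz⟩ := exists_zA J
  have h1 : ⁅Pi 151 (Mt (A0 J))ˣ, Pi 151 (Mt (A0 J))ˣ⁆ = Pi 151 (Mt (A0 J))ˣ := by
    have h2 := QG40.piA_perfect (incJ J) (fstR J) hsqJ
    have h3 : commutator (Pi 151 (Mt (A0 J))ˣ) = ⊤ := Group.isPerfect_def.1 h2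
    rw [← Subgroup.map_subtype_commutator, h3, ← MonoidHom.range_eq_map, Subgroup.range_subtype]
  refine ⟨FF C Y hX z, ?_, ?_⟩
  · have h2 : (⁅Pi 151 (Mt (A0 J))ˣ, Pi 151 (Mt (A0 J))ˣ⁆).map (FF C Y hX) ≤
        ⁅SS X C Y, SS X C Y⁆ := by
      rw [Subgroup.map_commutator]
      apply Subgroup.commutator_mono
      all_goals
        rintro _ ⟨g, hg, rfl⟩
        exact FF_mem h hX 0 hg
    apply h2
    refine ⟨z, ?_, rfl⟩
    rw [h1]
    exact mem_Pi hz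
  · exact FF_order h hX 0 hz

theorem SS_card (h : NF κ E) [Finite C] [Finite Y] :
    ¬ 151 ^ 2 ∣ Nat.card (SS X C Y) := by
  have _ := h.finJ
  have _ := h.finB
  have _ := h.finE
  have _ : Finite (A0 J) := finA0
  have _ := finite_NN κ E
  intro hd
  let f : SS X C Y →* NN κ E := (X.subtype.comp ((MonoidHom.fst X C).comp SD.pr)).comp
    (SS X C Y).subtype
  have h1 : Nat.card (SS X C Y) = Nat.card f.ker * Nat.card f.range := by
    rw [Subgroup.card_eq_card_quotient_mul_card_subgroup f.ker, mul_comm]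
    congr 1
    exact Nat.card_congr (QuotientGroup.quotientKerEquivRange f).toEquiv
  have h2 : IsPGroup 2 f.ker := by
    rintro ⟨⟨u, hu⟩, hk⟩
    refine ⟨1, ?_⟩
    apply Subtype.ext
    apply Subtype.ext
    show u ^ (2 ^ 1) = 1
    have h3 : (u.c.1 : NN κ E) = 1 := hk
    have h4 : u.c = 1 := Prod.ext (Subtype.ext h3) ((mem_SS X).mp hu).2
    rw [pow_one, pow_two]
    ext1
    · rw [SD.mul_v, h4, one_smul, SD.one_v]
      exact add_self_W κ u.v
    · rw [SD.mul_c, h4, mul_one]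
      rfl
  obtain ⟨m, hm⟩ := IsPGroup.iff_card.1 h2
  rw [h1, hm] at hd
  have hc : Nat.Coprime (151 ^ 2) (2 ^ m) := Nat.Coprime.pow _ _ (by norm_num)
  have h5 : 151 ^ 2 ∣ Nat.card f.range := hc.dvd_of_dvd_mul_left hd
  have h6 : f.range ≤ G1s κ E := by
    rintro _ ⟨u, rfl⟩
    exact PN_le_G1s h ((mem_SS X).mp u.2).1
  have h7 : Nat.card f.range ∣ Nat.card (G1s κ E) := Subgroup.card_dvd_of_le h6
  have h8 : Nat.card (G1s κ E) = Nat.card (Mt (A0 J))ˣ :=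
    (Nat.card_congr (sigEquiv κ E h.inj).toEquiv).symm
  rw [h8] at h7
  exact QG40.sq_not_dvdA (incJ J) (fstR J) hsqJ (h5.trans h7)

theorem SS_perfect (h : NF κ E) (hX : G1s κ E ≤ X) [Finite C] [Finite Y] :
    ⁅SS X C Y, SS X C Y⁆ = SS X C Y := by
  have _ := h.finB
  have _ := h.finE
  have _ := finite_NN κ E
  have _ : Fact (Nat.Prime 151) := ⟨prime151⟩
  exact perfect_of_card (SS_card h) (SS_le_Pi h hX) (SS_comm_order h hX)

end QM44
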