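import Mathlib
import Pool.Agent.Helper44.QM.SPerf

/-!
# The centraliser of `S`; centralisers of `Pi(G_1)` (project AUT, S00834)
-/

set_option autoImplicit false
set_option linter.unusedSectionVars false

namespace QM44

open QN43 QL44

variable {J : Type} [AddCommGroup J] [Module (ZMod 2) J] [Module (ZMod 2)ᵐᵒᵖ J]
  [IsCentralScalar (ZMod 2) J]
variable {B : Type} [Ring B] {κ : A0 J →+* B} {E : Type} [AddCommGroup E] [Module (A0 J) E]
variable {C Y : Type} [Group C] [AddCommGroup Y] [Module B Y] [DistribMulAction C Y]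
  [SMulCommClass C B Y]
variable {X : Subgroup (NN κ E)}

theorem mact_single {R M : Type} [Ring R] [AddCommGroup M] [Module R M] (m : Mt R) (i j : Fin 15)
    (y : M) : mact m (Pi.single j y) i = m i j • y := by
  rw [mact_apply, Finset.sum_eq_single j]
  · rw [Pi.single_eq_same]
  · intro k _ hk
    rw [Pi.single_eq_of_ne hk, smul_zero]
  · intro hj
    exact absurd (Finset.mem_univ j) hj

/-- `mact` is faithful if the module is -/
theorem mact_faithful {R M : Type} [Ring R] [AddCommGroup M] [Module R M]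
    (hf : ∀ b : R, (∀ y : M, b • y = 0) → b = 0) {m n : Mt R}
    (h : ∀ v : Fin 15 → M, mact m v = mact n v) : m = n := by
  funext i j
  rw [← sub_eq_zero]
  apply hf
  intro y
  rw [sub_smul, ← mact_single m i j y, ← mact_single n i j y, h, sub_self]

/-- an element of `X × C` acting trivially on `W` -/
theorem trivial_W (hC : Odd B C Y) (x : X × C) (hx : ∀ w : WW E Y, x • w = w) :
    x.1 = 1 ∧ ∀ y : Y, x.2 • y = y := by
  have h1 : ∀ y : Fin 15 → Y, mact (x.1.1.1.2 : Mt B) (fun i => x.2 • y i) = y := by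
    intro y
    have h2 := congrArg Prod.snd (hx ((0, y) : (Fin 15 → E) × (Fin 15 → Y)))
    exact h2
  have h2 : ∀ y : Fin 15 → Y, mact (x.1.1.1.2 : Mt B) y = fun i => x.2⁻¹ • y i := by
    intro y
    have h3 := h1 (fun i => x.2⁻¹ • y i)
    have h4 : (fun i => x.2 • (fun i => x.2⁻¹ • y i) i) = y := by
      funext i
      exact smul_inv_smul x.2 (y i)
    rw [h4] at h3
    exact h3
  have h3 : ∀ (a : C) (y : Y), x.2⁻¹ • a • y = a • x.2⁻¹ • y := by
    intro a y
    have h4 := congrFun (mact_smul (x.1.1.1.2 : Mt B) a (fun _ => y)) 0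
    rw [h2, h2] at h4
    exact h4
  have h4 := hC.cent x.2⁻¹ h3
  have h5 : ∀ y : Y, x.2 • y = y := fun y => (inv_smul_eq_iff.mp (h4 y)).symm
  refine ⟨?_, h5⟩
  have h6 : (x.1.1.1.2 : Mt B) = 1 := by
    apply mact_faithful hC.faith
    intro v
    rw [h2, mact_one_apply]
    funext i
    exact h4 (v i)
  have h7 : (x.1.1.1.1 : AddMonoid.End (Fin 15 → E)) = 1 := by
    apply AddMonoidHom.ext
    intro e
    have h8 := congrArg Prod.fst (hx ((e, 0) : (Fin 15 → E) × (Fin 15 → Y)))
    exact h8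
  exact Subtype.ext (Subtype.ext (Prod.ext (Units.ext h7) (Units.ext h6)))

/-- the centraliser of `S` is `D0` -/
theorem centralizer_SS (h : NF κ E) (hX : G1s κ E ≤ X) (hC : Odd B C Y) (u : GG X C Y) :
    u ∈ Subgroup.centralizer ((SS X C Y : Subgroup (GG X C Y)) : Set (GG X C Y)) ↔
      u.v = 0 ∧ u.c.1 = 1 ∧ ∀ y : Y, u.c.2 • y = y := by
  constructor
  · intro hu
    have h1 : ∀ w : WW E Y, u.c • w = w := by
      intro w
      have h2 := hu (SD.inl w) ((mem_SS X).mpr ⟨one_mem _, rfl⟩)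
      have h3 := congrArg SD.v h2
      rw [SD.mul_v, SD.mul_v, SD.inl_v, SD.inl_c, one_smul, add_comm w] at h3
      exact (add_left_cancel h3).symm
    obtain ⟨h2, h3⟩ := trivial_W hC u.c h1
    refine ⟨?_, h2, h3⟩
    obtain ⟨z, hz⟩ := exists_zA J
    have h4 := hu (FF C Y hX z) (FF_mem h hX 0 (mem_Pi hz))
    have h5 := congrArg SD.v h4
    rw [SD.mul_v, SD.mul_v, FF_apply, smul_zero, add_zero, zero_add] at h5
    apply fixW h (X := X) ((sigX hX z, 1) : X × C) _ (fun y => one_smul C y) u.v h5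
    rw [sigX_coe, sig_order h, hz]
  · rintro ⟨h1, h2, h3⟩ s hs
    have hs2 := ((mem_SS X).mp hs).2
    have hc : u.c = (1, u.c.2) := Prod.ext h2 rfl
    ext1
    · rw [SD.mul_v, SD.mul_v, h1, smul_zero, add_zero, zero_add, hc, smul_snd X h3]
    · rw [SD.mul_c, SD.mul_c, hc]
      refine Prod.ext ?_ ?_
      · show s.c.1 * 1 = 1 * s.c.1
        rw [mul_one, one_mul]
      · show s.c.2 * u.c.2 = u.c.2 * s.c.2
        rw [hs2, mul_one, one_mul]

/-- an element of `NN` commuting with `Pi(G_1)` commutes with `G_1` -/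
theorem comm_of_Pi (n : NN κ E) (hn : ∀ g ∈ Pi 151 (Mt (A0 J))ˣ, n * sig κ E g = sig κ E g * n)
    (g : (Mt (A0 J))ˣ) : n * sig κ E g = sig κ E g * n := by
  let T : AddSubgroup (Mt (A0 J)) :=
    { carrier := {m | (n.1.1 : AddMonoid.End (Fin 15 → E)) * mact m =
          mact m * (n.1.1 : AddMonoid.End (Fin 15 → E)) ∧
        (n.1.2 : Mt B) * kT κ m = kT κ m * (n.1.2 : Mt B)}
      zero_mem' := by
        refine ⟨?_, ?_⟩
        · rw [map_zero, mul_zero, zero_mul]
        · rw [kT_zero, mul_zero, zero_mul]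
      add_mem' := by
        rintro a b ⟨ha1, ha2⟩ ⟨hb1, hb2⟩
        refine ⟨?_, ?_⟩
        · rw [map_add, mul_add, add_mul, ha1, hb1]
        · rw [kT_add, mul_add, add_mul, ha2, hb2]
      neg_mem' := by
        rintro a ha
        have h0 : -a = a := by
          apply neg_eq_of_add_eq_zero_left
          funext i j
          exact QG40.add_selfA (incJ J) (a i j)
        rw [h0]
        exact ha }
  have hT : T = ⊤ := by
    rw [eq_top_iff, ← QG40.spanPi (incJ J) (fstR J) hsqJ, AddSubgroup.closure_le]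
    rintro _ ⟨g, hg, rfl⟩
    refine ⟨?_, ?_⟩
    · have h1 := hn g hg
      have h2 := congrArg (fun a : NN κ E => (a.1.1 : AddMonoid.End (Fin 15 → E))) h1
      exact h2
    · have h1 := hn g⁻¹ (inv_mem hg)
      have h2 := congrArg (fun a : NN κ E => (a.1.2 : Mt B)) h1
      have h3 : ((sig κ E g⁻¹).1.2 : Mt B) = kT κ ((g : (Mt (A0 J))ˣ) : Mt (A0 J)) := by
        rw [sig_snd, inv_inv]
      rw [← h3]
      exact h2
  have h1 : (g : Mt (A0 J)) ∈ T := by rw [hT]; trivial
  have h2 : ((g⁻¹ : (Mt (A0 J))ˣ) : Mt (A0 J)) ∈ T := by rw [hT]; trivial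
  apply Subtype.ext
  apply Prod.ext
  · exact Units.ext h1.1
  · exact Units.ext h2.2

end QM44
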