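import Mathlib
import Pool.Agent.Helper44.QM.Cent

/-!
# Automorphisms of `GG X C Y` preserving `S` preserve `M` (project AUT, S00834)
-/

set_option autoImplicit false
set_option linter.unusedSectionVars false

namespace QM44

open QN43 QL44

variable {J : Type} [AddCommGroup J] [Module (ZMod 2) J] [Module (ZMod 2)ᵐᵒᵖ J]
  [IsCentralScalar (ZMod 2) J]
variable {B : Type} [Ring B] {κ : A0 J →+* B} {E : Type} [AddCommGroup E] [Module (A0 J) E]
variable {C Y : Type} [Group C] [AddCommGroup Y] [Module B Y] [DistribMulAction C Y]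
  [SMulCommClass C B Y]
variable {X : Subgroup (NN κ E)}

/-- `S → GL_15(A0)` -/
noncomputable def piS (h : NF κ E) (X : Subgroup (NN κ E)) (C Y : Type) [Group C] [AddCommGroup Y]
    [Module B Y] [DistribMulAction C Y] [SMulCommClass C B Y] :
    SS X C Y →* (Mt (A0 J))ˣ :=
  (sigEquiv κ E h.inj).symm.toMonoidHom.comp
    (((X.subtype.comp ((MonoidHom.fst X C).comp SD.pr)).comp
      (SS X C Y).subtype).codRestrict (G1s κ E) (fun u => PN_le_G1s h ((mem_SS X).mp u.2).1))

theorem sig_piS (h : NF κ E) (u : SS X C Y) : sig κ E (piS h X C Y u) = (u.1.c.1 : NN κ E) := by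
  have h1 : (sigEquiv κ E h.inj (piS h X C Y u)).1 = (u.1.c.1 : NN κ E) := by
    unfold piS
    rw [MonoidHom.comp_apply]
    show (sigEquiv κ E h.inj ((sigEquiv κ E h.inj).symm _)).1 = _
    rw [MulEquiv.apply_symm_apply]
    rfl
  exact h1

theorem piS_ker (h : NF κ E) (u : SS X C Y) : u ∈ (piS h X C Y).ker ↔ u.1.c = 1 := by
  rw [MonoidHom.mem_ker]
  constructor
  · intro h1
    have h2 := sig_piS h u
    rw [h1, map_one] at h2
    exact Prod.ext (Subtype.ext h2.symm) ((mem_SS X).mp u.2).2
  · intro h1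
    apply sig_injective κ E h.inj
    rw [sig_piS, h1, map_one]
    rfl

/-- an automorphism preserving `S` preserves `M` -/
theorem M_le (h : NF κ E) (hX : G1s κ E ≤ X) [Finite C] [Finite Y]
    (α : MulAut (GG X C Y)) (hα : (SS X C Y).map α.toMonoidHom = SS X C Y) (w : WW E Y) :
    (α (SD.inl w)).c = 1 := by
  have _ := h.finB
  have _ := h.finE
  have _ := finite_NN κ E
  have hmem : ∀ u : GG X C Y, u ∈ SS X C Y → α u ∈ SS X C Y := by
    intro u hu
    rw [← hα]
    exact ⟨u, hu, rfl⟩
  have hmem' : ∀ u : GG X C Y, u ∈ SS X C Y → α.symm u ∈ SS X C Y := by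
    intro u hu
    rw [← hα] at hu
    obtain ⟨v, hv, rfl⟩ := hu
    have : α.symm (α.toMonoidHom v) = v := α.symm_apply_apply v
    rw [this]
    exact hv
  let β : MulAut (SS X C Y) :=
    { toFun := fun u => ⟨α u.1, hmem u.1 u.2⟩
      invFun := fun u => ⟨α.symm u.1, hmem' u.1 u.2⟩
      left_inv := fun u => Subtype.ext (α.symm_apply_apply u.1)
      right_inv := fun u => Subtype.ext (α.apply_symm_apply u.1)
      map_mul' := fun u v => Subtype.ext (map_mul α u.1 v.1) }
  have hlift : ∀ z : GL (Fin 15) (ZMod 2), orderOf z = 151 → ∃ y : SS X C Y, orderOf y = 151 ∧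
      Matrix.GeneralLinearGroup.map (fstR J) (piS h X C Y y) = z := by
    intro z hz
    have hz2 : orderOf (QG40.cst (incJ J) z) = 151 := by
      rw [QG40.orderOf_cst (incJ J) (fstR J), hz]
    refine ⟨⟨⟨0, (sigX hX (QG40.cst (incJ J) z), 1)⟩, FF_mem h hX 0 (mem_Pi hz2)⟩, ?_, ?_⟩
    · exact (Subgroup.orderOf_mk _ _).trans (FF_order (C := C) (Y := Y) h hX 0 hz2)
    · have h1 : piS h X C Y ⟨⟨0, (sigX hX (QG40.cst (incJ J) z), 1)⟩,
          FF_mem h hX 0 (mem_Pi hz2)⟩ = QG40.cst (incJ J) z := by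
        apply sig_injective κ E h.inj
        rw [sig_piS]
        rfl
      rw [h1]
      exact QG40.red_cst (incJ J) (fstR J) z
  have hM : ∀ m ∈ (piS h X C Y).ker, m * m = 1 := by
    intro m hm
    have h4 := (piS_ker h m).mp hm
    apply Subtype.ext
    show m.1 * m.1 = 1
    ext1
    · rw [SD.mul_v, h4, one_smul, SD.one_v]
      exact add_self_W κ m.1.v
    · rw [SD.mul_c, h4, mul_one]
      rfl
  have hfix : ∀ y : SS X C Y, orderOf y = 151 → ∀ m ∈ (piS h X C Y).ker, y * m = m * y → m = 1 := by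
    intro y hy m hm hym
    have h4 := (piS_ker h m).mp hm
    obtain ⟨h5, h6⟩ := (mem_SS X).mp y.2
    have h7 : y.1.v + y.1.c • m.1.v = m.1.v + y.1.v := by
      have := congrArg (fun s : SS X C Y => s.1.v) hym
      have e1 : (y * m).1.v = y.1.v + y.1.c • m.1.v := rfl
      have e2 : (m * y).1.v = m.1.v + m.1.c • y.1.v := rfl
      rw [← e1, this]
      show (m * y).1.v = _
      rw [e2, h4, one_smul]
    have h8 : y.1.c • m.1.v = m.1.v := by
      rw [add_comm m.1.v] at h7
      exact add_left_cancel h7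
    have h9 : orderOf (y.1.c.1 : NN κ E) = 151 := by
      have _ : Fact (Nat.Prime 151) := ⟨prime151⟩
      apply orderOf_eq_prime
      · have h10 : y.1 ^ 151 = 1 := by
          have := pow_orderOf_eq_one y
          rw [hy] at this
          exact congrArg Subtype.val this
        have h11 := congrArg SD.c h10
        rw [sd_pow_c] at h11
        exact congrArg (fun a : X × C => (a.1 : NN κ E)) h11
      · intro h10
        have h11 : y ∈ (piS h X C Y).ker := by
          rw [piS_ker]
          exact Prod.ext (Subtype.ext h10) h6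
        have h12 := hM y h11
        have h13 : y ^ 2 = 1 := by rw [pow_two, h12]
        have h14 := orderOf_dvd_of_pow_eq_one h13
        rw [hy] at h14
        norm_num at h14
    have h10 := fixW h (X := X) y.1.c h9 (fun t => by rw [h6, one_smul]) m.1.v h8
    apply Subtype.ext
    show m.1 = 1
    ext1
    · exact h10
    · exact h4
  have key := mchar151_tsze (piS h X C Y) hlift hM hfix β
  have h1 : (⟨SD.inl w, (mem_SS X).mpr ⟨one_mem _, rfl⟩⟩ : SS X C Y) ∈ (piS h X C Y).ker := by
    rw [piS_ker]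
    rfl
  have h2 : β ⟨SD.inl w, (mem_SS X).mpr ⟨one_mem _, rfl⟩⟩ ∈ (piS h X C Y).ker := by
    rw [← key]
    exact ⟨_, h1, rfl⟩
  exact (piS_ker h _).mp h2

end QM44
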