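import Mathlib
import Pool.Agent.Helper44.QM.MInv

/-!
# Automorphisms of `GG X C Y` (project AUT, S00834): first half of the uniform proposition
-/

set_option autoImplicit false
set_option linter.unusedSectionVars false

namespace QM44

open QN43 QL44

variable {J : Type} [AddCommGroup J] [Module (ZMod 2) J] [Module (ZMod 2)ᵐᵒᵖ J]
  [IsCentralScalar (ZMod 2) J]
variable {B : Type} [Ring B] {κ : A0 J →+* B} {E : Type} [AddCommGroup E] [Module (A0 J) E]
variable {C Y : Type} [Group C] [AddCommGroup Y] [Module B Y] [DistribMulAction C Y]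
  [SMulCommClass C B Y]
variable {X : Subgroup (NN κ E)}

/-- `α(S) = S` -/
theorem SS_invariant (h : NF κ E) (hX : G1s κ E ≤ X) (hC : Odd B C Y) (α : MulAut (GG X C Y))
    (D : Subgroup (GG X C Y))
    (hD : ∀ c : C, (∀ y : Y, c • y = y) → (⟨0, (1, c)⟩ : GG X C Y) ∈ D)
    (hDα : ∀ u ∈ D, α u ∈ D)
    (hTD : ¬ ∀ u : GG X C Y, u.c.2 = 1 → u ∈ D) :
    (SS X C Y).map α.toMonoidHom = SS X C Y := by
  have _ := h.finB
  have _ := h.finE
  have _ := finite_NN κ E
  have _ := hC.finC
  have _ := hC.finY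
  have _ : Fact (Nat.Prime 151) := ⟨prime151⟩
  let T : Subgroup (GG X C Y) :=
    { carrier := {u | u.c.2 = 1}
      one_mem' := rfl
      mul_mem' := by
        intro a b ha hb
        show (a.c * b.c).2 = 1
        rw [Prod.snd_mul, ha, hb, mul_one]
      inv_mem' := by
        intro a ha
        show (a.c⁻¹).2 = 1
        rw [Prod.snd_inv, ha, inv_one] }
  apply invariant_of_dichotomy (Q := QQ X C Y) (T := T) (D := D)
  · apply auto_dichotomy prime151
    · intro x hx y hy
      exact comm_SQ X hC.piTriv x ((mem_SS X).mp hx).2 y hy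
    · exact disj X
    · exact Pi_le_sup X hC.piTriv
    · exact SS_perfect h hX
    · exact SS_le_Pi h hX
    · exact fun B hB hle hb => min_of_card (SS_card h) (SS_le_Pi h hX) B hB hle hb
  · intro t ht q hq
    exact comm_SQ X hC.piTriv t ht q hq
  · intro u hu
    obtain ⟨h1, h2, h3⟩ := (centralizer_SS h hX hC u).mp hu
    have h4 : u = ⟨0, (1, u.c.2)⟩ := by
      ext1
      · exact h1
      · exact Prod.ext h2 rfl
    rw [h4]
    exact hD _ h3
  · rintro _ ⟨u, hu, rfl⟩
    exact hDα u hu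
  · intro hle
    exact hTD (fun u hu => hle hu)

/-- centre of an odd stage -/
theorem odd_centre (hC : Odd B C Y) (c : C) (hc : ∀ e : C, e * c = c * e) : c = 1 := by
  have h1 : ∀ y : Y, c • y = y := by
    apply hC.cent
    intro x y
    rw [← mul_smul, ← mul_smul, hc]
  exact hC.piCent c h1 (fun x _ => (hc x).symm)

section

variable (h : NF κ E) (hX : G1s κ E ≤ X) (hC : Odd B C Y) (α : MulAut (GG X C Y))

/-- the endomorphism of `X × C` induced by an automorphism -/
def bar (α : MulAut (GG X C Y)) : X × C →* X × C :=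
  (SD.pr.comp α.toMonoidHom).comp SD.inr

theorem bar_apply (x : X × C) : bar α x = (α (SD.inr x)).c := rfl

end

/-- **First half of the uniform proposition.** -/
theorem exists_factors (h : NF κ E) (hX : G1s κ E ≤ X) (hC : Odd B C Y) (α : MulAut (GG X C Y))
    (D : Subgroup (GG X C Y))
    (hD : ∀ c : C, (∀ y : Y, c • y = y) → (⟨0, (1, c)⟩ : GG X C Y) ∈ D)
    (hDα : ∀ u ∈ D, α u ∈ D)
    (hTD : ¬ ∀ u : GG X C Y, u.c.2 = 1 → u ∈ D) :
    ∃ (β : X ≃* X) (θ : C ≃* C) (g : WW E Y ≃+ WW E Y),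
      (∀ w : WW E Y, α (SD.inl w) = SD.inl (g w)) ∧
      (∀ u : GG X C Y, (α u).c = (β u.c.1, θ u.c.2)) ∧
      (∀ (x : X × C) (w : WW E Y), g (x • w) = ((β x.1, θ x.2) : X × C) • g w) ∧
      (∀ x : X, ((β x : X) : NN κ E) ∈ Pi 151 (NN κ E) ↔ (x : NN κ E) ∈ Pi 151 (NN κ E)) := by
  have _ := h.finB
  have _ := h.finE
  have _ := finite_NN κ E
  have _ := hC.finC
  have _ := hC.finY
  have hS := SS_invariant h hX hC α D hD hDα hTD
  have hS' : (SS X C Y).map (α⁻¹).toMonoidHom = SS X C Y := by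
    conv_lhs => rw [← hS]
    rw [Subgroup.map_map]
    have : (α⁻¹).toMonoidHom.comp α.toMonoidHom = MonoidHom.id _ := by
      ext1 x
      exact α.symm_apply_apply x
    rw [this, Subgroup.map_id]
  have hM := M_le h hX α hS
  have hM' := M_le h hX α⁻¹ hS'
  -- `c`-component
  have hc : ∀ u : GG X C Y, (α u).c = bar α u.c := by
    intro u
    conv_lhs => rw [SD.eq_mul u, map_mul, SD.mul_c, hM, one_mul]
    rfl
  have hker : ∀ u : GG X C Y, (α u).c = 1 → u.c = 1 := by
    intro u hu
    have h1 : α u = SD.inl (α u).v := by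
      ext1
      · rfl
      · exact hu
    have h2 : u = α⁻¹ (SD.inl (α u).v) := by
      rw [← h1]
      exact (α.symm_apply_apply u).symm
    rw [h2]
    exact hM' _
  have hbar : Function.Bijective (bar α) := by
    apply Finite.injective_iff_bijective.mp
    rw [injective_iff_map_eq_one]
    intro x hx
    exact hker (SD.inr x) hx
  let a : MulAut (X × C) := MulEquiv.ofBijective (bar α) hbar
  have ha : ∀ x, a x = bar α x := fun x => rfl
  -- the subgroups
  let X' : Subgroup (X × C) := (⊤ : Subgroup X).prod ⊥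
  let C' : Subgroup (X × C) := (⊥ : Subgroup X).prod ⊤
  let P' : Subgroup (X × C) := ((Pi 151 (NN κ E)).subgroupOf X).prod ⊥
  have mX : ∀ x : X × C, x ∈ X' ↔ x.2 = 1 := by
    intro x
    show x ∈ (⊤ : Subgroup X).prod ⊥ ↔ _
    rw [Subgroup.mem_prod, Subgroup.mem_bot]
    exact ⟨fun h => h.2, fun h => ⟨Subgroup.mem_top _, h⟩⟩
  have mC : ∀ x : X × C, x ∈ C' ↔ x.1 = 1 := by
    intro x
    show x ∈ (⊥ : Subgroup X).prod ⊤ ↔ _
    rw [Subgroup.mem_prod, Subgroup.mem_bot]
    exact ⟨fun h => h.1, fun h => ⟨h, Subgroup.mem_top _⟩⟩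
  have mP : ∀ x : X × C, x ∈ P' ↔ (x.1 : NN κ E) ∈ Pi 151 (NN κ E) ∧ x.2 = 1 := by
    intro x
    show x ∈ ((Pi 151 (NN κ E)).subgroupOf X).prod ⊥ ↔ _
    rw [Subgroup.mem_prod, Subgroup.mem_bot, Subgroup.mem_subgroupOf]
  have hPP : ∀ x : X × C, x ∈ P' ↔ a x ∈ P' := by
    intro x
    rw [mP, mP, ha, bar_apply]
    have h1 : (SD.inr x : GG X C Y) ∈ SS X C Y ↔ α (SD.inr x) ∈ SS X C Y := by
      constructor
      · intro hx
        rw [← hS]
        exact ⟨_, hx, rfl⟩
      · intro hx
        rw [← hS] at hx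
        obtain ⟨u, hu, hu2⟩ := hx
        have : u = SD.inr x := α.injective hu2
        rwa [this] at hu
    rw [mem_SS, mem_SS] at h1
    exact h1
  have hP : P'.map a.toMonoidHom = P' := by
    apply le_antisymm
    · rintro _ ⟨x, hx, rfl⟩
      exact (hPP x).mp hx
    · intro x hx
      refine ⟨a.symm x, ?_, a.apply_symm_apply x⟩
      apply (hPP _).mpr
      have : a (a.symm x) = x := a.apply_symm_apply x
      rw [this]
      exact hx
  have hfac := factors_invariant (X := X') (C := C') (P := P')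
    (by
      intro x hx c hc
      rw [mX] at hx
      rw [mC] at hc
      refine Prod.ext ?_ ?_
      · rw [Prod.fst_mul, Prod.fst_mul, hc, mul_one, one_mul]
      · rw [Prod.snd_mul, Prod.snd_mul, hx, mul_one, one_mul])
    (by
      rw [eq_top_iff]
      intro x _
      have h1 : x = (x.1, 1) * (1, x.2) := Prod.ext (mul_one _).symm (one_mul _).symm
      rw [h1]
      exact Subgroup.mul_mem _ (Subgroup.mem_sup_left ((mX _).mpr rfl))
        (Subgroup.mem_sup_right ((mC _).mpr rfl)))
    (by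
      intro x hx
      rw [mX]
      exact ((mP x).mp hx).2)
    (by
      show ⁅(⊥ : Subgroup X).prod ⊤, (⊥ : Subgroup X).prod ⊤⁆ = _
      rw [Subgroup.commutator_prod_prod, ← commutator_def, hC.perf, Subgroup.commutator_bot_left])
    (by
      intro c hc he
      rw [mC] at hc
      have h1 : c.2 = 1 := by
        apply odd_centre hC
        intro e
        have h2 := he (1, e) ((mC _).mpr rfl)
        exact congrArg Prod.snd h2
      exact Prod.ext hc h1)
    (by
      intro x hx hx2 y hy hy2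
      rw [mX] at hx hy
      have key : ∀ x : X × C, (∀ p ∈ P', p * x = x * p) → ∀ g, (x.1 : NN κ E) * sig κ E g =
          sig κ E g * (x.1 : NN κ E) := by
        intro x hx2
        apply comm_of_Pi
        intro g hg
        have h1 : ((sigX hX g, 1) : X × C) ∈ P' := by
          rw [mP]
          refine ⟨?_, rfl⟩
          rw [PN_eq h]
          exact ⟨g, hg, rfl⟩
        have h2 := hx2 _ h1
        have h3 := congrArg (fun t : X × C => (t.1 : NN κ E)) h2
        exact h3.symm
      have h1 := h.comm (x.1 : NN κ E) (y.1 : NN κ E) (key x hx2) (key y hy2)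
      refine Prod.ext (Subtype.ext h1) ?_
      rw [Prod.snd_mul, Prod.snd_mul, hx, hy])
    a hP
  obtain ⟨hCa, hXa⟩ := hfac
  have aX : ∀ x : X, (a (x, 1)).2 = 1 := by
    intro x
    rw [← mX, ← hXa]
    exact ⟨(x, 1), (mX _).mpr rfl, rfl⟩
  have aC : ∀ c : C, (a (1, c)).1 = 1 := by
    intro c
    rw [← mC, ← hCa]
    exact ⟨(1, c), (mC _).mpr rfl, rfl⟩
  have asplit : ∀ x : X × C, a x = ((a (x.1, 1)).1, (a (1, x.2)).2) := by
    intro x
    have h1 : x = (x.1, 1) * (1, x.2) := Prod.ext (mul_one _).symm (one_mul _).symm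
    conv_lhs => rw [h1, map_mul]
    refine Prod.ext ?_ ?_
    · rw [Prod.fst_mul, aC, mul_one]
    · rw [Prod.snd_mul, aX, one_mul]
  let β0 : X →* X := (MonoidHom.fst X C).comp (a.toMonoidHom.comp (MonoidHom.inl X C))
  let θ0 : C →* C := (MonoidHom.snd X C).comp (a.toMonoidHom.comp (MonoidHom.inr X C))
  have hβ0 : ∀ x, β0 x = (a (x, 1)).1 := fun x => rfl
  have hθ0 : ∀ c, θ0 c = (a (1, c)).2 := fun c => rfl
  have hβ : Function.Bijective β0 := by
    apply Finite.injective_iff_bijective.mp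
    rw [injective_iff_map_eq_one]
    intro x hx
    have h1 : a (x, 1) = 1 := Prod.ext (by rw [← hβ0, hx]; rfl) (aX x)
    have h2 : ((x, 1) : X × C) = 1 := (MulEquiv.map_eq_one_iff a).mp h1
    exact congrArg Prod.fst h2
  have hθ : Function.Bijective θ0 := by
    apply Finite.injective_iff_bijective.mp
    rw [injective_iff_map_eq_one]
    intro c hc
    have h1 : a (1, c) = 1 := Prod.ext (aC c) (by rw [← hθ0, hc]; rfl)
    have h2 : ((1, c) : X × C) = 1 := (MulEquiv.map_eq_one_iff a).mp h1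
    exact congrArg Prod.snd h2
  -- the additive part
  have hv : ∀ w : WW E Y, α (SD.inl w) = SD.inl (α (SD.inl w)).v := by
    intro w
    ext1
    · rfl
    · exact hM w
  let g0 : WW E Y →+ WW E Y := AddMonoidHom.mk' (fun w => (α (SD.inl w)).v) (by
    intro v w
    rw [← SD.inl_mul_inl, map_mul, SD.mul_v, hM, one_smul])
  have hg0 : ∀ w, g0 w = (α (SD.inl w)).v := fun w => rfl
  have hg : Function.Bijective g0 := by
    apply Finite.injective_iff_bijective.mp
    rw [injective_iff_map_eq_zero]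
    intro w hw
    have h1 : α (SD.inl w) = 1 := by
      rw [hv, ← hg0, hw]
      rfl
    have h2 : (SD.inl w : GG X C Y) = 1 := (MulEquiv.map_eq_one_iff α).mp h1
    exact congrArg SD.v h2
  refine ⟨MulEquiv.ofBijective β0 hβ, MulEquiv.ofBijective θ0 hθ, AddEquiv.ofBijective g0 hg,
    hv, ?_, ?_, ?_⟩
  · intro u
    rw [hc u]
    exact asplit u.c
  · intro x w
    have h1 := congrArg α (SD.conj_inl x w)
    rw [map_mul, map_mul, map_inv, hv w] at h1
    have h2 := congrArg SD.v h1
    have h3 : (α (SD.inr x)).c = ((β0 x.1, θ0 x.2) : X × C) := asplit x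
    have h4 : (α (SD.inr x) * SD.inl (α (SD.inl w)).v * (α (SD.inr x))⁻¹).v =
        (α (SD.inr x)).c • (α (SD.inl w)).v := by
      rw [SD.mul_v, SD.mul_v, SD.mul_c, SD.inl_c, mul_one, SD.inl_v, SD.inv_v, smul_neg,
        smul_inv_smul]
      abel
    rw [h4, h3] at h2
    exact h2.symm
  · intro x
    have h1 := hPP (x, 1)
    rw [mP, mP] at h1
    have h2 : (a (x, 1)).2 = 1 := aX x
    constructor
    · intro hx
      exact (h1.mpr ⟨hx, h2⟩).1
    · intro hx
      exact (h1.mp ⟨hx, rfl⟩).1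

end QM44
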