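import Mathlib
import Pool.Agent.Helper44.QM.Factors
import Pool.Agent.Helper27.QP.Conj
import Pool.Agent.Helper42.QH.NNSteps
import Pool.Agent.Helper40.QX.A0

/-!
# The uniform proposition (project AUT, S00834)
-/

set_option autoImplicit false
set_option linter.unusedSectionVars false

namespace QM44

open QN43 QL44

section

variable {J : Type} [AddCommGroup J] [Module (ZMod 2) J] [Module (ZMod 2)ᵐᵒᵖ J]
  [IsCentralScalar (ZMod 2) J]
variable {B : Type} [Ring B] {κ : A0 J →+* B} {E : Type} [AddCommGroup E] [Module (A0 J) E]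

theorem PiIn_G1s (h : NF κ E) : PiIn 151 (G1s κ E) = Pi 151 (NN κ E) := by
  apply le_antisymm
  · rw [← PiIn_top]
    exact PiIn_mono le_top
  · apply Pi_le
    intro n hn
    apply mem_PiIn _ hn
    exact h.pow n (by rw [← hn]; exact pow_orderOf_eq_one n)

end

variable {J B E W U O : Type}
    [AddCommGroup J] [Module (ZMod 2) J] [Module (ZMod 2)ᵐᵒᵖ J] [IsCentralScalar (ZMod 2) J]
    [Ring B] [AddCommGroup E] [Module (A0 J) E] [AddCommGroup W] [Module (A0 J) W]
    [AddCommGroup U] [Module B U] [Group O] [DistribMulAction O W] [DistribMulAction O U]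
    {κ : A0 J →+* B} {inc : E →+ W} {jU : U →+ (W →+ ZMod 2)} {Φ : J ≃+ (Fin 15 → W)}
    {p : NN0 κ E →* O}

theorem nf (h : GFacts κ inc jU Φ p) : NF κ E :=
  ⟨h.finJ, h.finB, h.finE, h.kapInj, fun n hn => QS42.NN_pow h n hn,
    fun n m hn hm => QS42.NN_comm h n m hn hm⟩

/-- **The uniform proposition.** -/
theorem uniform (h : GFacts κ inc jU Φ p) {C Y : Type} [Group C] [AddCommGroup Y] [Module B Y]
    [DistribMulAction C Y] [SMulCommClass C B Y] (hC : Odd B C Y) {X : Subgroup (NN κ E)}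
    (hX : G1s κ E ≤ X) (α : MulAut (GG X C Y)) (D : Subgroup (GG X C Y))
    (hD : ∀ c : C, (∀ y : Y, c • y = y) → (⟨0, (1, c)⟩ : GG X C Y) ∈ D)
    (hDα : ∀ u ∈ D, α u ∈ D)
    (hTD : ¬ ∀ u : GG X C Y, u.c.2 = 1 → u ∈ D) :
    ∃ γ : GG (⊤ : Subgroup (NN κ E)) C Y, ∀ u, QP27.emb X C Y (α u) =
      γ * QP27.emb X C Y u * γ⁻¹ := by
  obtain ⟨β, θ, g, h1, h2, -, h4⟩ := exists_factors (nf h) hX hC α D hD hDα hTD
  have _ := h.finE
  refine QP27.conj_of_factors h.kapInj (QS42.G1s_normal h) hC hX α β θ g h1 h2 ?_ ?_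
  · intro x hx
    rw [PiIn_G1s (nf h)] at hx ⊢
    exact (h4 x).mpr hx
  · intro x hx
    rw [PiIn_G1s (nf h)] at hx ⊢
    rw [← h4, MulEquiv.apply_symm_apply]
    exact hx

/-- `N' = GG G1s C Y`: every automorphism is conjugation by an element of `GG ⊤ C Y`. -/
theorem conj_G1s (h : GFacts κ inc jU Φ p) {C Y : Type} [Group C] [AddCommGroup Y] [Module B Y]
    [DistribMulAction C Y] [SMulCommClass C B Y] (hC : Odd B C Y)
    (α : MulAut (GG (G1s κ E) C Y)) :
    ∃ γ : GG (⊤ : Subgroup (NN κ E)) C Y, ∀ u, QP27.emb (G1s κ E) C Y (α u) =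
      γ * QP27.emb (G1s κ E) C Y u * γ⁻¹ := by
  refine uniform h hC le_rfl α (commutator (GG (G1s κ E) C Y)) ?_ ?_ ?_
  · intro c _
    have h1 : c ∈ commutator C := by rw [hC.perf]; trivial
    have h2 : (commutator C).map ((SD.inr : G1s κ E × C →* GG (G1s κ E) C Y).comp
        (MonoidHom.inr (G1s κ E) C)) ≤ commutator (GG (G1s κ E) C Y) := by
      rw [commutator_def, Subgroup.map_commutator, commutator_def]
      exact Subgroup.commutator_mono le_top le_top
    exact h2 ⟨c, h1, rfl⟩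
  · intro u hu
    have h1 : (commutator (GG (G1s κ E) C Y)).map α.toMonoidHom ≤
        commutator (GG (G1s κ E) C Y) := by
      rw [commutator_def, Subgroup.map_commutator]
      exact Subgroup.commutator_mono le_top le_top
    exact h1 ⟨u, hu, rfl⟩
  · intro hall
    -- the determinant
    have _ := h.nontrivJ
    obtain ⟨j, hj⟩ := exists_ne (0 : J)
    let det : GG (G1s κ E) C Y →* (A0 J)ˣ :=
      (Matrix.GeneralLinearGroup.det : (Mt (A0 J))ˣ →* (A0 J)ˣ).comp
        ((sigEquiv κ E h.kapInj).symm.toMonoidHom.comp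
          ((MonoidHom.fst (G1s κ E) C).comp SD.pr))
    have hk : commutator (GG (G1s κ E) C Y) ≤ det.ker := by
      rw [commutator_def, Subgroup.commutator_le]
      intro a _ b _
      rw [MonoidHom.mem_ker, map_commutatorElement, commutatorElement_eq_one_iff_mul_comm]
      exact mul_comm _ _
    have h1 : ∀ g : (Mt (A0 J))ˣ, Matrix.GeneralLinearGroup.det g = 1 := by
      intro g
      have h2 := hk (hall (⟨0, (sigEquiv κ E h.kapInj g, 1)⟩ : GG (G1s κ E) C Y) rfl)
      rw [MonoidHom.mem_ker] at h2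
      have h3 : det ⟨0, (sigEquiv κ E h.kapInj g, 1)⟩ = Matrix.GeneralLinearGroup.det g := by
        show Matrix.GeneralLinearGroup.det ((sigEquiv κ E h.kapInj).symm (sigEquiv κ E h.kapInj g)) = _
        rw [MulEquiv.symm_apply_apply]
      rw [← h3, h2]
    have h4 := h1 (QX40.sc (QX40.onej (Multiplicative.ofAdd j)))
    rw [QX40.det_sc] at h4
    have h5 := congrArg QX40.sndU h4
    rw [QX40.sndU_onej, map_one] at h5
    exact hj h5

end QM44
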