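import Mathlib
import Pool.Agent.Helper44.QM.Uniform
import Pool.Agent.Helper40.QX.Char

/-!
# `F(N') = V ⋊ C'` and `Z(N') = 1` (project AUT, S00834)
-/

set_option autoImplicit false
set_option linter.unusedSectionVars false

namespace QM44

open QN43 QL44

variable {J B E W U O : Type}
    [AddCommGroup J] [Module (ZMod 2) J] [Module (ZMod 2)ᵐᵒᵖ J] [IsCentralScalar (ZMod 2) J]
    [Ring B] [AddCommGroup E] [Module (A0 J) E] [AddCommGroup W] [Module (A0 J) W]
    [AddCommGroup U] [Module B U] [Group O] [DistribMulAction O W] [DistribMulAction O U]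
    {κ : A0 J →+* B} {inc : E →+ W} {jU : U →+ (W →+ ZMod 2)} {Φ : J ≃+ (Fin 15 → W)}
    {p : NN0 κ E →* O}

variable {C Y : Type} [Group C] [AddCommGroup Y] [Module B Y]
    [DistribMulAction C Y] [SMulCommClass C B Y]

/-- an element of `GG ⊤ C Y` commuting with `N' = GG G1s C Y` is trivial -/
theorem commutes_trivial (h : GFacts κ inc jU Φ p) (hC : Odd B C Y)
    (γ : GG (⊤ : Subgroup (NN κ E)) C Y)
    (hγ : ∀ u : GG (G1s κ E) C Y, QX40.emb u * γ = γ * QX40.emb u) : γ = 1 := by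
  have hnf := nf h
  have h1 : γ ∈ Subgroup.centralizer ((SS (⊤ : Subgroup (NN κ E)) C Y :
      Subgroup (GG (⊤ : Subgroup (NN κ E)) C Y)) : Set (GG (⊤ : Subgroup (NN κ E)) C Y)) := by
    intro s hs
    obtain ⟨h2, h3⟩ := (mem_SS _).mp hs
    have h4 : (s.c.1 : NN κ E) ∈ G1s κ E := PN_le_G1s hnf h2
    exact hγ (⟨s.v, (⟨s.c.1, h4⟩, s.c.2)⟩ : GG (G1s κ E) C Y)
  obtain ⟨h5, h6, -⟩ := (centralizer_SS hnf le_top hC γ).mp h1
  have h7 : γ.c.2 = 1 := by
    apply odd_centre hC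
    intro e
    have h8 := hγ (⟨0, (1, e)⟩ : GG (G1s κ E) C Y)
    exact congrArg (fun a : GG (⊤ : Subgroup (NN κ E)) C Y => a.c.2) h8
  ext1
  · exact h5
  · exact Prod.ext h6 h7

/-- (O1) -/
theorem odd_center (h : GFacts κ inc jU Φ p) (hC : Odd B C Y) :
    Subgroup.center (GG (G1s κ E) C Y) = ⊥ := by
  rw [eq_bot_iff]
  intro z hz
  rw [Subgroup.mem_center_iff] at hz
  rw [Subgroup.mem_bot]
  apply QX40.emb_injective
  rw [map_one]
  apply commutes_trivial h hC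
  intro u
  rw [← map_mul, hz u, map_mul]

theorem emb_range_normal (h : GFacts κ inc jU Φ p) :
    (QX40.emb : GG (G1s κ E) C Y →* GG (⊤ : Subgroup (NN κ E)) C Y).range.Normal := by
  have hn := QS42.G1s_normal h
  constructor
  rintro _ ⟨u, rfl⟩ γ
  have h1 : (γ.c.1.1 : NN κ E) * u.c.1 * (γ.c.1.1)⁻¹ ∈ G1s κ E := hn.conj_mem _ u.c.1.2 _
  refine ⟨⟨(γ * QX40.emb u * γ⁻¹).v, (⟨_, h1⟩, γ.c.2 * u.c.2 * γ.c.2⁻¹)⟩, ?_⟩
  ext1
  · rfl
  · rfl

/-- conjugation -/
noncomputable def conjN (h : GFacts κ inc jU Φ p) (C Y : Type) [Group C] [AddCommGroup Y]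
    [Module B Y] [DistribMulAction C Y] [SMulCommClass C B Y] :
    GG (⊤ : Subgroup (NN κ E)) C Y →* MulAut (GG (G1s κ E) C Y) :=
  have _ := emb_range_normal (C := C) (Y := Y) h
  (MulAut.congr (MonoidHom.ofInjective
    (f := (QX40.emb : GG (G1s κ E) C Y →* GG (⊤ : Subgroup (NN κ E)) C Y))
    QX40.emb_injective).symm).toMonoidHom.comp
    (MulAut.conjNormal (H := (QX40.emb : GG (G1s κ E) C Y →*
      GG (⊤ : Subgroup (NN κ E)) C Y).range))

theorem conjN_spec (h : GFacts κ inc jU Φ p) (γ : GG (⊤ : Subgroup (NN κ E)) C Y)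
    (x : GG (G1s κ E) C Y) : QX40.emb (conjN h C Y γ x) = γ * QX40.emb x * γ⁻¹ := by
  have _ := emb_range_normal (C := C) (Y := Y) h
  let e := MonoidHom.ofInjective
    (f := (QX40.emb : GG (G1s κ E) C Y →* GG (⊤ : Subgroup (NN κ E)) C Y)) QX40.emb_injective
  have h1 : conjN h C Y γ x = e.symm (MulAut.conjNormal γ (e x)) := rfl
  have h2 : ∀ y, QX40.emb (e.symm y) = y.1 := fun y => MonoidHom.apply_ofInjective_symm _ y
  rw [h1, h2, MulAut.conjNormal_apply]
  rfl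

theorem conjN_bijective (h : GFacts κ inc jU Φ p) (hC : Odd B C Y) :
    Function.Bijective (conjN h C Y) := by
  constructor
  · rw [injective_iff_map_eq_one]
    intro γ hγ
    apply commutes_trivial h hC
    intro u
    have h1 := conjN_spec h γ u
    rw [hγ] at h1
    have h2 : QX40.emb u = γ * QX40.emb u * γ⁻¹ := h1
    rw [eq_mul_inv_iff_mul_eq] at h2
    exact h2
  · intro α
    obtain ⟨γ, hγ⟩ := conj_G1s h hC α
    refine ⟨γ, ?_⟩
    ext1 x
    apply QX40.emb_injective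
    rw [conjN_spec]
    exact (hγ x).symm

/-- (O2) -/
theorem F_odd (h : GFacts κ inc jU Φ p) {q : NN κ E →* O} (hq : QSpec κ E Φ q)
    {C Y : Type} [Group C] [AddCommGroup Y] [Module B Y]
    [DistribMulAction C Y] [SMulCommClass C B Y] (hC : Odd B C Y)
    [DistribMulAction (GG (⊤ : Subgroup (NN κ E)) C Y) W]
    (hW : ∀ (g : GG (⊤ : Subgroup (NN κ E)) C Y) (w : W), g • w = q g.c.1.1 • w) :
    Nonempty (F (GG (G1s κ E) C Y) ≃* SD (DV W) (GG (⊤ : Subgroup (NN κ E)) C Y)) :=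
  QX40.F_odd_of_aut h hq hC hW (MulEquiv.ofBijective (conjN h C Y) (conjN_bijective h hC))
    (fun g x => conjN_spec h g x)

end QM44
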